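import Pool.Agent.TH206.Fro.Defs

set_option autoImplicit false

/-!
# Stable sets and a last variable

Task NM-D of helper176 (second prover helper460).
-/

namespace Pool.Agent.TH460.NM

open Finset Pool.Agent.TH206.Fro
open scoped Pointwise

lemma stab_up {n : ℕ} (e : ℕ) (m : Fin n) (hm : ∀ i, i ≤ m) (B : Finset (Fin n →₀ ℕ))
    (hs : Stable B) (w x : Fin n →₀ ℕ) (hx : x ∈ Mon n e) (h : w + Finsupp.single m e ∈ B) :
    w + x ∈ B := by
  classical
  have key : ∀ t : ℕ, ∀ x : Fin n →₀ ℕ, x ∈ Mon n e → ∑ i ∈ univ.erase m, x i = t →
      w + x ∈ B := by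
    intro t
    induction t with
    | zero =>
      intro x hx ht
      have h1 : ∀ i, i ≠ m → x i = 0 := fun i hi =>
        (Finset.sum_eq_zero_iff.1 ht) i (mem_erase.2 ⟨hi, mem_univ i⟩)
      have h2 : x m = e := by
        rw [mem_Mon, ← add_sum_erase _ _ (mem_univ m), ht] at hx
        simpa using hx
      have h3 : x = Finsupp.single m e := by
        ext i
        by_cases hi : i = m
        · subst hi
          simp [h2]
        · rw [h1 i hi, Finsupp.single_apply, if_neg (fun h => hi h.symm)]
      rw [h3]
      exact h
    | succ t ih =>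
      intro x hx ht
      obtain ⟨i, hi, hxi⟩ : ∃ i ∈ univ.erase m, x i ≠ 0 := by
        by_contra hcon
        push Not at hcon
        rw [Finset.sum_eq_zero hcon] at ht
        omega
      have him : i ≠ m := (mem_erase.1 hi).1
      have hlt : i < m := lt_of_le_of_ne (hm i) him
      have hle : Finsupp.single i 1 ≤ x := by
        rw [Finsupp.single_le_iff]
        omega
      have hx' : x - Finsupp.single i 1 + Finsupp.single m 1 ∈ Mon n e := by
        rw [mem_Mon'] at hx ⊢
        have h1 : x - Finsupp.single i 1 + Finsupp.single i 1 = x := tsub_add_cancel_of_le hle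
        have h2 : Finsupp.degree (x - Finsupp.single i 1 + Finsupp.single i 1) = e := by
          rw [h1, hx]
        rw [map_add] at h2 ⊢
        rw [Finsupp.degree_single] at h2 ⊢
        exact h2
      have hsum : ∑ l ∈ univ.erase m, (x - Finsupp.single i 1 + Finsupp.single m 1 : Fin n →₀ ℕ) l = t := by
        have ht2 : x i + ∑ l ∈ (univ.erase m).erase i, x l = t + 1 := by
          rw [add_sum_erase _ (fun l => x l) hi]
          exact ht
        rw [← add_sum_erase _ _ hi]
        have h1 : ∀ l ∈ (univ.erase m).erase i,
            (x - Finsupp.single i 1 + Finsupp.single m 1 : Fin n →₀ ℕ) l = x l := by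
          intro l hl
          have hli : l ≠ i := (mem_erase.1 hl).1
          have hlm : l ≠ m := (mem_erase.1 (mem_erase.1 hl).2).1
          rw [Finsupp.add_apply, Finsupp.tsub_apply, Finsupp.single_apply, Finsupp.single_apply,
            if_neg (fun h => hli h.symm), if_neg (fun h => hlm h.symm)]
          simp
        rw [sum_congr rfl h1, Finsupp.add_apply, Finsupp.tsub_apply, Finsupp.single_apply,
          Finsupp.single_apply, if_pos rfl, if_neg (fun h => him h.symm)]
        have hxi' : 1 ≤ x i := Nat.one_le_iff_ne_zero.2 hxi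
        generalize ∑ l ∈ (univ.erase m).erase i, x l = S at ht2 ⊢
        omega
      have h4 := hs _ (ih _ hx' hsum) i m hlt (by
        rw [Finsupp.add_apply, Finsupp.add_apply, Finsupp.single_apply, if_pos rfl]
        omega)
      have h5 : mv i m (w + (x - Finsupp.single i 1 + Finsupp.single m 1)) = w + x := by
        unfold mv
        rw [← add_assoc, add_tsub_cancel_right, add_assoc, tsub_add_cancel_of_le hle]
      rw [h5] at h4
      exact h4
  exact key _ x hx rfl

/-- the set of the w' with w' x_m^e outside B is not larger than the complement of B -/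
lemma Bc_card {n : ℕ} (f e : ℕ) (m : Fin n) (B : Finset (Fin n →₀ ℕ)) :
    ((Mon n f).filter (fun w => w + Finsupp.single m e ∉ B)).card ≤ (Mon n (f + e) \ B).card := by
  classical
  refine card_le_card_of_injOn (fun w => w + Finsupp.single m e) ?_ ?_
  · intro w hw
    rw [mem_coe, mem_filter] at hw
    rw [mem_coe, mem_sdiff]
    refine ⟨?_, hw.2⟩
    rw [mem_Mon', map_add, Finsupp.degree_single, (mem_Mon'.1 hw.1)]
  · intro a _ b _ h
    exact add_right_cancel h

end Pool.Agent.TH460.NM
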